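import Pool.Agent.Helper93.Fin.Work
import Pool.Agent.helper77.FinD
import Pool.Agent.helper74.FinT

/-!
# Module FIN-S: the spray and the Riemann curvature of the chart Lagrangian at the base point

With `M(x) = P ∘ Θ(x)` on `𝔪` the chart Lagrangian is `L(M(x) y)` and its spray is
`Γ(x, y) = M(x)⁻¹ (DM(x)(y) y + η(M(x) y) + P [N(x) y, M(x) y])`, `N(x) y = Θ(x) y - M(x) y ∈ 𝔥`.
-/

noncomputable section

namespace Pool.Agent.Helper93.Fin

namespace FinS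

open scoped ContDiff
open Filter Topology

/-- mixed partial derivatives commute -/
theorem mixed_symm {E F G : Type*} [NormedAddCommGroup E] [NormedSpace ℝ E]
    [NormedAddCommGroup F] [NormedSpace ℝ F] [NormedAddCommGroup G] [NormedSpace ℝ G]
    {f : E × F → G} {x : E} {y : F} (hf : ContDiffAt ℝ 2 f (x, y)) (a : E) (b : F) :
    fderiv ℝ (fun x' => fderiv ℝ (fun y' => f (x', y')) y b) x a =
      fderiv ℝ (fun y' => fderiv ℝ (fun x' => f (x', y')) x a) y b := by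
  have hev : ∀ᶠ p in 𝓝 (x, y), DifferentiableAt ℝ f p := by
    filter_upwards [hf.eventually (by simp)] with p hp
    exact hp.differentiableAt (by norm_num)
  have hx : ∀ᶠ x' in 𝓝 x, DifferentiableAt ℝ f (x', y) :=
    (Continuous.prodMk_left y).continuousAt.eventually hev
  have hy : ∀ᶠ y' in 𝓝 y, DifferentiableAt ℝ f (x, y') :=
    (Continuous.prodMk_right x).continuousAt.eventually hev
  have e1 : (fun x' => fderiv ℝ (fun y' => f (x', y')) y b) =ᶠ[𝓝 x]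
      fun x' => fderiv ℝ f (x', y) (0, b) := by
    filter_upwards [hx] with x' hx'
    have h1 : HasFDerivAt (fun y' : F => (x', y')) (ContinuousLinearMap.inr ℝ E F) y :=
      hasFDerivAt_prodMk_right x' y
    have h2 := hx'.hasFDerivAt.comp y h1
    have h3 := h2.fderiv
    have h4 : (f ∘ fun y' => (x', y')) = fun y' => f (x', y') := rfl
    rw [h4] at h3
    rw [h3]
    simp
  have e2 : (fun y' => fderiv ℝ (fun x' => f (x', y')) x a) =ᶠ[𝓝 y]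
      fun y' => fderiv ℝ f (x, y') (a, 0) := by
    filter_upwards [hy] with y' hy'
    have h1 : HasFDerivAt (fun x' : E => (x', y')) (ContinuousLinearMap.inl ℝ E F) x :=
      hasFDerivAt_prodMk_left x y'
    have h2 := hy'.hasFDerivAt.comp x h1
    have h3 := h2.fderiv
    have h4 : (f ∘ fun x' => (x', y')) = fun x' => f (x', y') := rfl
    rw [h4] at h3
    rw [h3]
    simp
  rw [e1.fderiv_eq, e2.fderiv_eq]
  have hd : DifferentiableAt ℝ (fderiv ℝ f) (x, y) :=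
    (hf.fderiv_right (m := 1) (by norm_num)).differentiableAt (by norm_num)
  have h5 : HasFDerivAt (fun x' : E => fderiv ℝ f (x', y))
      ((fderiv ℝ (fderiv ℝ f) (x, y)).comp (ContinuousLinearMap.inl ℝ E F)) x :=
    hd.hasFDerivAt.comp x (hasFDerivAt_prodMk_left x y)
  have h6 : HasFDerivAt (fun y' : F => fderiv ℝ f (x, y'))
      ((fderiv ℝ (fderiv ℝ f) (x, y)).comp (ContinuousLinearMap.inr ℝ E F)) y :=
    hd.hasFDerivAt.comp y (hasFDerivAt_prodMk_right x y)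
  have h7 := (h5.clm_apply (hasFDerivAt_const ((0 : E), b) x)).fderiv
  have h8 := (h6.clm_apply (hasFDerivAt_const (a, (0 : F)) y)).fderiv
  rw [h7, h8]
  have hs := hf.isSymmSndFDerivAt (by simp [minSmoothness])
  have := hs (a, 0) (0, b)
  simpa using this

section S

variable {𝔸 : Type*} [NormedRing 𝔸] [NormedAlgebra ℝ 𝔸] [FiniteDimensional ℝ 𝔸]
variable {E : Type*} [NormedAddCommGroup E] [NormedSpace ℝ E]

/-- `T ↦ P ∘ T ∘ ι` -/
def cc (ι : E →L[ℝ] 𝔸) (P : 𝔸 →L[ℝ] E) : (𝔸 →L[ℝ] 𝔸) →L[ℝ] (E →L[ℝ] E) :=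
  (ContinuousLinearMap.compL ℝ E 𝔸 E P).comp
    ((ContinuousLinearMap.compL ℝ E 𝔸 𝔸).flip ι)

omit [FiniteDimensional ℝ 𝔸] in
theorem cc_apply (ι : E →L[ℝ] 𝔸) (P : 𝔸 →L[ℝ] E) (T : 𝔸 →L[ℝ] 𝔸) (y : E) :
    cc ι P T y = P (T (ι y)) := rfl

/-- `M(x) = P ∘ Θ(x)` on `𝔪` -/
def MM (ι : E →L[ℝ] 𝔸) (P : 𝔸 →L[ℝ] E) (x : E) : E →L[ℝ] E := cc ι P (Theta (ι x))

variable {ι : E →L[ℝ] 𝔸} {P : 𝔸 →L[ℝ] E}

omit [FiniteDimensional ℝ 𝔸] in
theorem MM_apply (x y : E) : MM ι P x y = P (Theta (ι x) (ι y)) := rfl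

theorem MM_contDiff : ContDiff ℝ ∞ (MM ι P) :=
  (cc ι P).contDiff.comp (Theta_contDiff.comp ι.contDiff)

theorem MM_zero (hP : ∀ y, P (ι y) = y) : MM ι P 0 = ContinuousLinearMap.id ℝ E := by
  ext1 y
  rw [MM_apply, map_zero, Theta_zero, ContinuousLinearMap.id_apply, hP]
  rfl

theorem hasFDerivAt_MM (x : E) : HasFDerivAt (MM ι P)
    ((cc ι P).comp ((fderiv ℝ Theta (ι x)).comp ι)) x := by
  have h1 : HasFDerivAt (Theta : 𝔸 → 𝔸 →L[ℝ] 𝔸) (fderiv ℝ Theta (ι x)) (ι x) :=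
    (Theta_contDiff.differentiable (by simp)).differentiableAt.hasFDerivAt
  exact (cc ι P).hasFDerivAt.comp x (h1.comp x ι.hasFDerivAt)

theorem fderiv_MM (x : E) : fderiv ℝ (MM ι P) x =
    (cc ι P).comp ((fderiv ℝ Theta (ι x)).comp ι) := (hasFDerivAt_MM x).fderiv

theorem dMM_apply (x a y : E) : fderiv ℝ (MM ι P) x a y =
    P (fderiv ℝ Theta (ι x) (ι a) (ι y)) := by
  rw [fderiv_MM]; rfl

theorem dMM_zero (a y : E) : fderiv ℝ (MM ι P) 0 a y =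
    P (-(1 / 2 : ℝ) • ⁅ι a, ι y⁆) := by
  rw [dMM_apply, map_zero, dTheta_zero]

theorem d2MM_apply (x a b y : E) : fderiv ℝ (fderiv ℝ (MM ι P)) x a b y =
    P (fderiv ℝ (fderiv ℝ Theta) (ι x) (ι a) (ι b) (ι y)) := by
  have e : fderiv ℝ (MM ι P) = fun x : E => (cc ι P).comp ((fderiv ℝ Theta (ι x)).comp ι) :=
    funext fderiv_MM
  have h1 : HasFDerivAt (fderiv ℝ (Theta : 𝔸 → 𝔸 →L[ℝ] 𝔸)) (fderiv ℝ (fderiv ℝ Theta) (ι x))
      (ι x) :=
    ((Theta_contDiff.fderiv_right (m := 1) (by norm_cast)).differentiable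
      (by simp)).differentiableAt.hasFDerivAt
  have h2 : HasFDerivAt (fun x : E => fderiv ℝ (Theta : 𝔸 → 𝔸 →L[ℝ] 𝔸) (ι x))
      ((fderiv ℝ (fderiv ℝ Theta) (ι x)).comp ι) x :=
    HasFDerivAt.comp (g := fderiv ℝ (Theta : 𝔸 → 𝔸 →L[ℝ] 𝔸)) (f := ι)
      (g' := fderiv ℝ (fderiv ℝ Theta) (ι x)) (f' := ι) x h1 ι.hasFDerivAt
  have h3 := (hasFDerivAt_const (cc ι P) x).clm_comp (h2.clm_comp (hasFDerivAt_const ι x))
  rw [e, h3.fderiv]
  simp [cc_apply]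

theorem d2MM_zero (a b y : E) : fderiv ℝ (fderiv ℝ (MM ι P)) 0 a b y =
    P ((1 / 6 : ℝ) • (⁅ι a, ⁅ι b, ι y⁆⁆ + ⁅ι b, ⁅ι a, ι y⁆⁆)) := by
  rw [d2MM_apply, map_zero, d2Theta_zero]

theorem dMM_smooth : ContDiff ℝ ∞ (fderiv ℝ (MM ι P)) :=
  MM_contDiff.fderiv_right (by simp)

end S

section HasD

variable {E F G : Type*} [NormedAddCommGroup E] [NormedSpace ℝ E] [NormedAddCommGroup F]
  [NormedSpace ℝ F] [NormedAddCommGroup G] [NormedSpace ℝ G]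

/-- `f` is differentiable at `x` with differential `d` -/
def HasD (f : E → F) (x : E) (d : E → F) : Prop := ∃ K : E →L[ℝ] F, HasFDerivAt f K x ∧ ∀ v, K v = d v

theorem HasD.fderiv {f : E → F} {x : E} {d : E → F} (h : HasD f x d) (v : E) :
    fderiv ℝ f x v = d v := by
  obtain ⟨K, hK, hd⟩ := h
  rw [hK.fderiv, hd]

theorem HasD.of {f : E → F} {x : E} (h : DifferentiableAt ℝ f x) :
    HasD f x (fun v => _root_.fderiv ℝ f x v) := ⟨_, h.hasFDerivAt, fun _ => rfl⟩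

theorem HasD.congr_d {f : E → F} {x : E} {d d' : E → F} (h : HasD f x d) (e : ∀ v, d v = d' v) :
    HasD f x d' := by
  obtain ⟨K, hK, hd⟩ := h
  exact ⟨K, hK, fun v => (hd v).trans (e v)⟩

theorem HasD.const (c : F) (x : E) : HasD (fun _ : E => c) x (fun _ => 0) :=
  ⟨0, hasFDerivAt_const c x, fun _ => rfl⟩

theorem HasD.id (x : E) : HasD (fun y : E => y) x (fun v => v) :=
  ⟨ContinuousLinearMap.id ℝ E, hasFDerivAt_id x, fun _ => rfl⟩

theorem HasD.add {f g : E → F} {x : E} {d e : E → F} (h : HasD f x d) (h' : HasD g x e) :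
    HasD (fun y => f y + g y) x (fun v => d v + e v) := by
  obtain ⟨K, hK, hd⟩ := h
  obtain ⟨K', hK', hd'⟩ := h'
  exact ⟨K + K', hK.add hK', fun v => by simp [hd, hd']⟩

theorem HasD.sub {f g : E → F} {x : E} {d e : E → F} (h : HasD f x d) (h' : HasD g x e) :
    HasD (fun y => f y - g y) x (fun v => d v - e v) := by
  obtain ⟨K, hK, hd⟩ := h
  obtain ⟨K', hK', hd'⟩ := h'
  exact ⟨K - K', hK.sub hK', fun v => by simp [hd, hd']⟩

theorem HasD.smul {f : E → F} {x : E} {d : E → F} (c : ℝ) (h : HasD f x d) :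
    HasD (fun y => c • f y) x (fun v => c • d v) := by
  obtain ⟨K, hK, hd⟩ := h
  exact ⟨c • K, hK.const_smul c, fun v => by simp [hd]⟩

theorem HasD.clm {f : E → F} {x : E} {d : E → F} (T : F →L[ℝ] G) (h : HasD f x d) :
    HasD (fun y => T (f y)) x (fun v => T (d v)) := by
  obtain ⟨K, hK, hd⟩ := h
  exact ⟨T.comp K, T.hasFDerivAt.comp x hK, fun v => by simp [hd]⟩

theorem HasD.comp {f : E → F} {x : E} {d : E → F} {g : F → G} (h : HasD f x d)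
    (hg : DifferentiableAt ℝ g (f x)) :
    HasD (fun y => g (f y)) x (fun v => _root_.fderiv ℝ g (f x) (d v)) := by
  obtain ⟨K, hK, hd⟩ := h
  exact ⟨(_root_.fderiv ℝ g (f x)).comp K, hg.hasFDerivAt.comp x hK, fun v => by simp [hd]⟩

theorem HasD.apply {A : E → F →L[ℝ] G} {f : E → F} {x : E} {d : E → F} {A' : E → F →L[ℝ] G}
    (hA : HasD A x A') (h : HasD f x d) :
    HasD (fun y => A y (f y)) x (fun v => A' v (f x) + A x (d v)) := by
  obtain ⟨K, hK, hd⟩ := h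
  obtain ⟨K', hK', hd'⟩ := hA
  exact ⟨_, hK'.clm_apply hK, fun v => by simp [hd, hd', add_comm]⟩

theorem HasD.congr {f g : E → F} {x : E} {d : E → F} (h : HasD f x d) (e : g =ᶠ[𝓝 x] f) :
    HasD g x d := by
  obtain ⟨K, hK, hd⟩ := h
  exact ⟨K, hK.congr_of_eventuallyEq e, hd⟩

theorem HasD.lie {𝔸 : Type*} [NormedRing 𝔸] [NormedAlgebra ℝ 𝔸] {f g : E → 𝔸} {x : E}
    {d e : E → 𝔸} (h : HasD f x d) (h' : HasD g x e) :
    HasD (fun y => ⁅f y, g y⁆) x (fun v => ⁅d v, g x⁆ + ⁅f x, e v⁆) := by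
  obtain ⟨K, hK, hd⟩ := h
  obtain ⟨K', hK', hd'⟩ := h'
  have h1 := (hK.mul' hK').sub (hK'.mul' hK)
  refine ⟨_, h1, fun v => ?_⟩
  simp only [Ring.lie_def, sub_apply, add_apply,
    smul_apply, smul_eq_mul, hd, hd',
    MulOpposite.smul_eq_mul_unop, MulOpposite.unop_op]
  abel

end HasD

section S

variable {𝔸 : Type*} [NormedRing 𝔸] [NormedAlgebra ℝ 𝔸] [FiniteDimensional ℝ 𝔸]
variable {E : Type*} [NormedAddCommGroup E] [NormedSpace ℝ E]

/-- the data used in the computation of the spray -/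
structure SD (ι : E →L[ℝ] 𝔸) (P : 𝔸 →L[ℝ] E) (h : Set 𝔸) (L : E → ℝ) (η : E → E) : Prop where
  Pι : ∀ y, P (ι y) = y
  smooth : ContDiffOn ℝ ∞ L {0}ᶜ
  pos : ∀ u : E, u ≠ 0 → ∀ w : E, w ≠ 0 → 0 < D2 L u w w
  ηs : ContDiffOn ℝ ∞ η {0}ᶜ
  ηe : ∀ u : E, u ≠ 0 → ∀ w, D2 L u (η u) w = - D1 L u (P ⁅ι u, ι w⁆)
  inv : ∀ Y ∈ h, ∀ u : E, u ≠ 0 → D1 L u (P ⁅Y, ι u⁆) = 0
  inv2 : ∀ Y ∈ h, ∀ u : E, u ≠ 0 → ∀ z, D2 L u (P ⁅Y, ι u⁆) z = - D1 L u (P ⁅Y, ι z⁆)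
  res : ∀ x y : E, Theta (ι x) (ι y) - ι (P (Theta (ι x) (ι y))) ∈ h
  hh : ∀ Y ∈ h, ∀ Y' ∈ h, P ⁅Y, Y'⁆ = 0

variable {ι : E →L[ℝ] 𝔸} {P : 𝔸 →L[ℝ] E} {h : Set 𝔸} {L : E → ℝ} {η : E → E}

theorem smoothAt {F : Type*} [NormedAddCommGroup F] [NormedSpace ℝ F] {f : E → F}
    (hf : ContDiffOn ℝ ∞ f {0}ᶜ) {p : E} (hp : p ≠ 0) : ContDiffAt ℝ ∞ f p :=
  hf.contDiffAt (isOpen_compl_singleton.mem_nhds hp)

theorem dsmooth {F : Type*} [NormedAddCommGroup F] [NormedSpace ℝ F] {f : E → F}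
    (hf : ContDiffOn ℝ ∞ f {0}ᶜ) {p : E} (hp : p ≠ 0) : DifferentiableAt ℝ (fderiv ℝ f) p :=
  ((smoothAt hf hp).fderiv_right (m := 1) (by norm_cast)).differentiableAt (by simp)

theorem D2_eq' (hf : ContDiffOn ℝ ∞ L {0}ᶜ) {p : E} (hp : p ≠ 0) (a b : E) :
    D2 L p a b = fderiv ℝ (fderiv ℝ L) p b a := by
  unfold D2 D1
  have h1 : HasD (fun z => fderiv ℝ L z a) p (fun v => fderiv ℝ (fderiv ℝ L) p v a) :=
    ((HasD.of (dsmooth hf hp)).apply (HasD.const a p)).congr_d (fun v => by simp)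
  exact h1.fderiv b

/-- the chart Lagrangian -/
def Lam (ι : E →L[ℝ] 𝔸) (P : 𝔸 →L[ℝ] E) (L : E → ℝ) (x y : E) : ℝ :=
  L (P (Theta (ι x) (ι y)))

omit [FiniteDimensional ℝ 𝔸] in
theorem Lam_eq (x y : E) : Lam ι P L x y = L (MM ι P x y) := rfl

omit [FiniteDimensional ℝ 𝔸] in
theorem Lam_fderiv (hf : ContDiffOn ℝ ∞ L {0}ᶜ) {x y : E} (hxy : MM ι P x y ≠ 0) (w : E) :
    fderiv ℝ (Lam ι P L x) y w = fderiv ℝ L (MM ι P x y) (MM ι P x w) := by
  have h1 : HasD (fun z => L (MM ι P x z)) y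
      (fun v => fderiv ℝ L (MM ι P x y) (MM ι P x v)) :=
    ((HasD.id y).clm (MM ι P x)).comp ((smoothAt hf hxy).differentiableAt (by simp))
  exact h1.fderiv w

theorem MM_hasD (x y : E) : HasD (fun z => MM ι P z y) x (fun v => fderiv ℝ (MM ι P) x v y) :=
  ((HasD.of (MM_contDiff.differentiable (by simp)).differentiableAt).apply
    (HasD.const y x)).congr_d (fun v => by simp)

theorem MM_inj {x : E} (hx : IsUnit (MM ι P x)) {y : E} (hy : y ≠ 0) : MM ι P x y ≠ 0 := by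
  intro h0
  obtain ⟨U, hU⟩ := hx
  apply hy
  have h1 : ((U⁻¹ : (E →L[ℝ] E)ˣ) : E →L[ℝ] E) (MM ι P x y) = y := by
    rw [← hU]
    have : (((U⁻¹ : (E →L[ℝ] E)ˣ) : E →L[ℝ] E) * (U : E →L[ℝ] E)) y = y := by
      rw [Units.inv_mul]; rfl
    exact this
  rw [← h1, h0, map_zero]

theorem fund_Lam (hf : ContDiffOn ℝ ∞ L {0}ᶜ) {x y : E} (hxy : MM ι P x y ≠ 0) (z w : E) :
    fund (Lam ι P L) x y z w = D2 L (MM ι P x y) (MM ι P x w) (MM ι P x z) := by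
  unfold fund
  have hev : ∀ᶠ z' in 𝓝 y, MM ι P x z' ≠ 0 :=
    ((MM ι P x).continuous.continuousAt.eventually_ne hxy)
  have e1 : (fun z' => fderiv ℝ (Lam ι P L x) z' w) =ᶠ[𝓝 y]
      fun z' => fderiv ℝ L (MM ι P x z') (MM ι P x w) := by
    filter_upwards [hev] with z' hz'
    exact Lam_fderiv hf hz' w
  rw [e1.fderiv_eq, D2_eq' hf hxy]
  have h1 : HasD (fun z' => fderiv ℝ L (MM ι P x z') (MM ι P x w)) y
      (fun v => fderiv ℝ (fderiv ℝ L) (MM ι P x y) (MM ι P x v) (MM ι P x w)) :=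
    ((((HasD.id y).clm (MM ι P x)).comp (dsmooth hf hxy)).apply
      (HasD.const (MM ι P x w) y)).congr_d (fun v => by simp)
  exact h1.fderiv z

theorem eulerLag_Lam (hf : ContDiffOn ℝ ∞ L {0}ᶜ) {x y : E} (hxy : MM ι P x y ≠ 0) (w : E) :
    eulerLag (Lam ι P L) x y w =
      D2 L (MM ι P x y) (MM ι P x w) (fderiv ℝ (MM ι P) x y y) +
      D1 L (MM ι P x y) (fderiv ℝ (MM ι P) x y w - fderiv ℝ (MM ι P) x w y) := by
  unfold eulerLag
  have hc : ContinuousAt (fun z => MM ι P z y) x := by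
    obtain ⟨K, hK, -⟩ := MM_hasD (ι := ι) (P := P) x y
    exact hK.continuousAt
  have hev : ∀ᶠ z' in 𝓝 x, MM ι P z' y ≠ 0 := hc.eventually_ne hxy
  have e1 : (fun z => fderiv ℝ (Lam ι P L z) y w) =ᶠ[𝓝 x]
      fun z => fderiv ℝ L (MM ι P z y) (MM ι P z w) := by
    filter_upwards [hev] with z' hz'
    exact Lam_fderiv hf hz' w
  have h1 : HasD (fun z => fderiv ℝ L (MM ι P z y) (MM ι P z w)) x
      (fun v => fderiv ℝ (fderiv ℝ L) (MM ι P x y) (fderiv ℝ (MM ι P) x v y) (MM ι P x w) +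
        fderiv ℝ L (MM ι P x y) (fderiv ℝ (MM ι P) x v w)) :=
    (((MM_hasD x y).comp (dsmooth hf hxy))).apply (MM_hasD x w)
  have h2 : HasD (fun z => Lam ι P L z y) x
      (fun v => fderiv ℝ L (MM ι P x y) (fderiv ℝ (MM ι P) x v y)) :=
    (MM_hasD x y).comp ((smoothAt hf hxy).differentiableAt (by simp))
  rw [e1.fderiv_eq, h1.fderiv, h2.fderiv, D2_eq' hf hxy]
  unfold D1
  rw [map_sub]
  ring

/-- the formula for the spray -/
def GG (ι : E →L[ℝ] 𝔸) (P : 𝔸 →L[ℝ] E) (η : E → E) (x y : E) : E :=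
  Ring.inverse (MM ι P x) (fderiv ℝ (MM ι P) x y y + η (MM ι P x y) +
    P ⁅Theta (ι x) (ι y) - ι (MM ι P x y), ι (MM ι P x y)⁆)

theorem spray_eq (S : SD ι P h L η) {x y : E} (hx : IsUnit (MM ι P x)) (hy : y ≠ 0) :
    spray (Lam ι P L) x y = GG ι P η x y := by
  have hp := MM_inj hx hy
  have hf := S.smooth
  obtain ⟨p, hpdef⟩ : ∃ p, p = MM ι P x y := ⟨_, rfl⟩
  obtain ⟨N, hN⟩ : ∃ N, N = Theta (ι x) (ι y) - ι (MM ι P x y) := ⟨_, rfl⟩
  have hNh : N ∈ h := by rw [hN]; exact S.res x y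
  -- `M G = …`
  have hMG : MM ι P x (GG ι P η x y) = fderiv ℝ (MM ι P) x y y + η p + P ⁅N, ι p⁆ := by
    unfold GG
    rw [← hN, ← hpdef]
    have : ∀ v, MM ι P x (Ring.inverse (MM ι P x) v) = v := by
      intro v
      have h1 : (MM ι P x * Ring.inverse (MM ι P x)) v = v := by
        rw [Ring.mul_inverse_cancel _ hx]; rfl
      exact h1
    rw [this]
  rw [← hpdef] at hp
  have hex : ∀ w, fund (Lam ι P L) x y (GG ι P η x y) w = eulerLag (Lam ι P L) x y w := by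
    intro w
    rw [fund_Lam hf (by rw [← hpdef]; exact hp), eulerLag_Lam hf (by rw [← hpdef]; exact hp), hMG,
      ← hpdef]
    obtain ⟨N', hN'⟩ : ∃ N', N' = Theta (ι x) (ι w) - ι (MM ι P x w) := ⟨_, rfl⟩
    have hNh' : N' ∈ h := by rw [hN']; exact S.res x w
    have e1 : fderiv ℝ (MM ι P) x y w - fderiv ℝ (MM ι P) x w y =
        - P (⁅ι p, ι (MM ι P x w)⁆) + P ⁅N', ι p⁆ - P ⁅N, ι (MM ι P x w)⁆ := by
      rw [dMM_apply, dMM_apply, ← map_sub, Theta_MC]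
      have t1 : Theta (ι x) (ι y) = N + ι p := by rw [hN, hpdef]; abel
      have t2 : Theta (ι x) (ι w) = N' + ι (MM ι P x w) := by rw [hN']; abel
      rw [t1, t2]
      have t3 := S.hh N hNh N' hNh'
      have t4 : -⁅N + ι p, N' + ι (MM ι P x w)⁆ =
          -⁅N, N'⁆ - ⁅ι p, ι (MM ι P x w)⁆ + ⁅N', ι p⁆ - ⁅N, ι (MM ι P x w)⁆ := by
        simp only [Ring.lie_def]; noncomm_ring
      rw [t4, map_sub, map_add, map_sub, map_neg, t3]
      abel
    rw [e1]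
    have e2 : D2 L p (MM ι P x w) (fderiv ℝ (MM ι P) x y y + η p + P ⁅N, ι p⁆) =
        D2 L p (MM ι P x w) (fderiv ℝ (MM ι P) x y y) + D2 L p (η p) (MM ι P x w) +
        D2 L p (P ⁅N, ι p⁆) (MM ι P x w) := by
      rw [D2_symm hf hp (η p), D2_symm hf hp (P ⁅N, ι p⁆)]
      simp only [D2_eq' hf hp, map_add, add_apply]
    rw [e2, S.ηe p hp, S.inv2 N hNh p hp]
    have e3 := S.inv N' hNh' p hp
    unfold D1 at e3 ⊢
    rw [map_sub, map_add, map_neg, e3]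
    ring
  have hsp := Classical.epsilon_spec (p := fun z => ∀ w, fund (Lam ι P L) x y z w =
    eulerLag (Lam ι P L) x y w) ⟨_, hex⟩
  have hsp' : ∀ w, fund (Lam ι P L) x y (spray (Lam ι P L) x y) w =
      eulerLag (Lam ι P L) x y w := hsp
  by_contra hne
  have hd : spray (Lam ι P L) x y - GG ι P η x y ≠ 0 := sub_ne_zero.mpr hne
  have hMd := MM_inj hx hd
  have h1 := hsp' (spray (Lam ι P L) x y - GG ι P η x y)
  have h2 := hex (spray (Lam ι P L) x y - GG ι P η x y)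
  rw [fund_Lam hf (by rw [← hpdef]; exact hp), ← hpdef] at h1 h2
  have h3 := S.pos p hp _ hMd
  rw [D2_eq' hf hp] at h1 h2 h3
  rw [map_sub (MM ι P x), map_sub (fderiv ℝ (fderiv ℝ L) p), sub_apply,
    ← map_sub (MM ι P x), h1, h2] at h3
  simp at h3

end S

section S

variable {𝔸 : Type*} [NormedRing 𝔸] [NormedAlgebra ℝ 𝔸] [FiniteDimensional ℝ 𝔸]
variable {E : Type*} [NormedAddCommGroup E] [NormedSpace ℝ E] [CompleteSpace E]
variable {ι : E →L[ℝ] 𝔸} {P : 𝔸 →L[ℝ] E} {h : Set 𝔸} {L : E → ℝ} {η : E → E}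

section lie

variable {R : Type*} [Ring R] [Algebra ℝ R]

omit [Algebra ℝ R] in
theorem l0l (a : R) : ⁅(0 : R), a⁆ = 0 := by rw [Ring.lie_def]; simp
omit [Algebra ℝ R] in
theorem l0r (a : R) : ⁅a, (0 : R)⁆ = 0 := by rw [Ring.lie_def]; simp
omit [Algebra ℝ R] in
theorem lself (a : R) : ⁅a, a⁆ = 0 := by rw [Ring.lie_def]; simp
omit [Algebra ℝ R] in
theorem laddl (a b c : R) : ⁅a + b, c⁆ = ⁅a, c⁆ + ⁅b, c⁆ := by
  simp only [Ring.lie_def]; noncomm_ring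
omit [Algebra ℝ R] in
theorem laddr (a b c : R) : ⁅c, a + b⁆ = ⁅c, a⁆ + ⁅c, b⁆ := by
  simp only [Ring.lie_def]; noncomm_ring
omit [Algebra ℝ R] in
theorem lsubl (a b c : R) : ⁅a - b, c⁆ = ⁅a, c⁆ - ⁅b, c⁆ := by
  simp only [Ring.lie_def]; noncomm_ring
omit [Algebra ℝ R] in
theorem lsubr (a b c : R) : ⁅c, a - b⁆ = ⁅c, a⁆ - ⁅c, b⁆ := by
  simp only [Ring.lie_def]; noncomm_ring
omit [Algebra ℝ R] in
theorem lskew (a b : R) : ⁅a, b⁆ = -⁅b, a⁆ := by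
  simp only [Ring.lie_def]; noncomm_ring
theorem lsl (r : ℝ) (a b : R) : ⁅r • a, b⁆ = r • ⁅a, b⁆ := by
  simp only [Ring.lie_def, smul_mul_assoc, mul_smul_comm, smul_sub]
theorem lsr (r : ℝ) (a b : R) : ⁅a, r • b⁆ = r • ⁅a, b⁆ := by
  simp only [Ring.lie_def, smul_mul_assoc, mul_smul_comm, smul_sub]
omit [Algebra ℝ R] in
theorem lnl (a b : R) : ⁅-a, b⁆ = -⁅a, b⁆ := by
  simp only [Ring.lie_def]; noncomm_ring
omit [Algebra ℝ R] in
theorem lnr (a b : R) : ⁅a, -b⁆ = -⁅a, b⁆ := by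
  simp only [Ring.lie_def]; noncomm_ring

end lie

omit [CompleteSpace E] in
theorem MM_zero' (hP : ∀ y, P (ι y) = y) : MM ι P 0 = ((1 : (E →L[ℝ] E)ˣ) : E →L[ℝ] E) := by
  rw [MM_zero hP]; rfl

omit [CompleteSpace E] in
theorem MM_zero_apply (hP : ∀ y, P (ι y) = y) (y : E) : MM ι P 0 y = y := by
  rw [MM_zero hP]; rfl

theorem inv_hasD (hP : ∀ y, P (ι y) = y) : HasD (fun x => Ring.inverse (MM ι P x)) 0
    (fun v => -fderiv ℝ (MM ι P) 0 v) := by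
  have h1 := hasFDerivAt_ringInverse (𝕜 := ℝ) (1 : (E →L[ℝ] E)ˣ)
  rw [← MM_zero' hP] at h1
  have h2 : HasFDerivAt (MM ι P) (fderiv ℝ (MM ι P) 0) 0 :=
    (MM_contDiff.differentiable (by simp)).differentiableAt.hasFDerivAt
  refine ⟨_, HasFDerivAt.comp (g := Ring.inverse) (f := MM ι P) 0 h1 h2, fun v => ?_⟩
  ext w
  simp

theorem GG_zero (S : SD ι P h L η) (y : E) : GG ι P η 0 y = η y := by
  unfold GG
  rw [MM_zero_apply S.Pι, dMM_zero, map_zero, Theta_zero, MM_zero' S.Pι, Ring.inverse_unit]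
  have e1 : ⁅ι y, ι y⁆ = 0 := lself _
  rw [e1]
  simp [l0l]

/-- derivative of the spray in the direction `a` of the base point -/
def FF (ι : E →L[ℝ] 𝔸) (P : 𝔸 →L[ℝ] E) (η : E → E) (a y : E) : E :=
  (1 / 2 : ℝ) • P ⁅ι a, ι (η y)⁆ + (1 / 6 : ℝ) • P ⁅ι y, ⁅ι a, ι y⁆⁆ -
    (1 / 2 : ℝ) • fderiv ℝ η y (P ⁅ι a, ι y⁆) -
    (1 / 2 : ℝ) • P ⁅⁅ι a, ι y⁆ - ι (P ⁅ι a, ι y⁆), ι y⁆

omit [CompleteSpace E] in
theorem Theta_hasD (x y : E) : HasD (fun z => Theta (ι z) (ι y)) x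
    (fun v => fderiv ℝ Theta (ι x) (ι v) (ι y)) := by
  have h1 : HasD (fun z : E => Theta (ι z)) x (fun v => fderiv ℝ Theta (ι x) (ι v)) :=
    ((HasD.id x).clm ι).comp (Theta_contDiff.differentiable (by simp)).differentiableAt
  exact (h1.apply (HasD.const (ι y) x)).congr_d (fun v => by simp)

theorem GG_hasD (S : SD ι P h L η) {y : E} (hy : y ≠ 0) :
    HasD (fun x => GG ι P η x y) 0 (fun a => FF ι P η a y) := by
  have h1 : HasD (fun x => fderiv ℝ (MM ι P) x y y) 0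
      (fun v => fderiv ℝ (fderiv ℝ (MM ι P)) 0 v y y) :=
    (((HasD.of ((dMM_smooth (ι := ι) (P := P)).differentiable (by simp)).differentiableAt).apply
      (HasD.const y 0)).apply (HasD.const y 0)).congr_d (fun v => by simp)
  have h2 : HasD (fun x => η (MM ι P x y)) 0
      (fun v => fderiv ℝ η (MM ι P 0 y) (fderiv ℝ (MM ι P) 0 v y)) :=
    (MM_hasD 0 y).comp (by
      rw [MM_zero_apply S.Pι]; exact (smoothAt S.ηs hy).differentiableAt (by simp))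
  have h3 : HasD (fun x => P ⁅Theta (ι x) (ι y) - ι (MM ι P x y), ι (MM ι P x y)⁆) 0
      (fun v => P (⁅fderiv ℝ Theta (ι 0) (ι v) (ι y) - ι (fderiv ℝ (MM ι P) 0 v y),
        ι (MM ι P 0 y)⁆ + ⁅Theta (ι 0) (ι y) - ι (MM ι P 0 y),
        ι (fderiv ℝ (MM ι P) 0 v y)⁆)) :=
    HasD.clm P (((Theta_hasD 0 y).sub ((MM_hasD 0 y).clm ι)).lie ((MM_hasD 0 y).clm ι))
  have h4 := (inv_hasD (ι := ι) S.Pι).apply ((h1.add h2).add h3)
  refine h4.congr_d (fun v => ?_)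
  have e0 : MM ι P 0 = ((1 : (E →L[ℝ] E)ˣ) : E →L[ℝ] E) := MM_zero' S.Pι
  have e1 : ⁅ι y, ι y⁆ = 0 := lself _
  have e2 : Ring.inverse (MM ι P 0) = 1 := by rw [e0, Ring.inverse_unit]; simp
  rw [e2]
  simp only [MM_zero_apply S.Pι, dMM_zero, d2MM_zero, map_zero ι, Theta_zero, dTheta_zero,
    ContinuousLinearMap.id_apply, sub_self, l0l, e1, l0r, smul_zero, map_zero,
    add_zero, zero_add, neg_apply, one_apply_eq_self]
  unfold FF
  simp only [lsubl, lsl, map_smul, map_sub]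
  module

end S

section S

variable {𝔸 : Type*} [NormedRing 𝔸] [NormedAlgebra ℝ 𝔸] [FiniteDimensional ℝ 𝔸]
variable {E : Type*} [NormedAddCommGroup E] [NormedSpace ℝ E] [CompleteSpace E]
variable {ι : E →L[ℝ] 𝔸} {P : 𝔸 →L[ℝ] E} {h : Set 𝔸} {L : E → ℝ} {η : E → E}

theorem GG_smooth (S : SD ι P h L η) {u : E} (hu : u ≠ 0) :
    ContDiffAt ℝ 2 (fun p : E × E => GG ι P η p.1 p.2) (0, u) := by
  have hM : ContDiffAt ℝ 2 (fun p : E × E => MM ι P p.1) (0, u) :=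
    ((MM_contDiff (ι := ι) (P := P)).of_le (by norm_cast)).contDiffAt.comp
      (0, u) contDiffAt_fst
  have hMy : ContDiffAt ℝ 2 (fun p : E × E => MM ι P p.1 p.2) (0, u) :=
    hM.clm_apply contDiffAt_snd
  have hJ : ContDiffAt ℝ 2 (fun p : E × E => Ring.inverse (MM ι P p.1)) (0, u) := by
    have h1 := contDiffAt_ringInverse (n := 2) ℝ (1 : (E →L[ℝ] E)ˣ)
    rw [← MM_zero' S.Pι] at h1
    exact ContDiffAt.comp (g := Ring.inverse) (f := fun p : E × E => MM ι P p.1) (0, u) h1 hM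
  have hd : ContDiffAt ℝ 2 (fun p : E × E => fderiv ℝ (MM ι P) p.1) (0, u) :=
    ((dMM_smooth (ι := ι) (P := P)).of_le (by norm_cast)).contDiffAt.comp
      (0, u) contDiffAt_fst
  have hη : ContDiffAt ℝ 2 (fun p : E × E => η (MM ι P p.1 p.2)) (0, u) := by
    have h1 : ContDiffAt ℝ 2 η (MM ι P (0, u).1 (0, u).2) := by
      show ContDiffAt ℝ 2 η (MM ι P 0 u)
      rw [MM_zero_apply S.Pι]
      exact (smoothAt S.ηs hu).of_le (by norm_cast)
    exact ContDiffAt.comp (g := η) (f := fun p : E × E => MM ι P p.1 p.2) (0, u) h1 hMy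
  have hT : ContDiffAt ℝ 2 (fun p : E × E => Theta (ι p.1) (ι p.2)) (0, u) := by
    have h1 : ContDiff ℝ 2 (fun p : E × E => Theta (ι p.1)) :=
      ((Theta_contDiff (𝔸 := 𝔸)).of_le (by norm_cast)).comp
        (ι.contDiff.comp contDiff_fst)
    exact (h1.clm_apply (ι.contDiff.comp contDiff_snd)).contDiffAt
  have hιM : ContDiffAt ℝ 2 (fun p : E × E => ι (MM ι P p.1 p.2)) (0, u) :=
    ι.contDiff.contDiffAt.comp (0, u) hMy
  have hB : ContDiffAt ℝ 2 (fun p : E × E =>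
      P ⁅Theta (ι p.1) (ι p.2) - ι (MM ι P p.1 p.2), ι (MM ι P p.1 p.2)⁆) (0, u) := by
    simp only [Ring.lie_def]
    exact P.contDiff.contDiffAt.comp (0, u)
      (((hT.sub hιM).mul hιM).sub (hιM.mul (hT.sub hιM)))
  exact hJ.clm_apply ((((hd.clm_apply contDiffAt_snd).clm_apply contDiffAt_snd).add hη).add hB)

omit [FiniteDimensional ℝ 𝔸] [CompleteSpace E] in
theorem FF_hasD (hη : ContDiffOn ℝ ∞ η {0}ᶜ) {u : E} (hu : u ≠ 0) :
    HasD (fun y => FF ι P η u y) u (fun v =>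
      (1 / 2 : ℝ) • P ⁅ι u, ι (fderiv ℝ η u v)⁆ + (1 / 6 : ℝ) • P ⁅ι u, ⁅ι u, ι v⁆⁆ -
        (1 / 2 : ℝ) • fderiv ℝ η u (P ⁅ι u, ι v⁆) -
        (1 / 2 : ℝ) • P ⁅⁅ι u, ι v⁆ - ι (P ⁅ι u, ι v⁆), ι u⁆) := by
  have hc : HasD (fun _ : E => ι u) u (fun _ => 0) := HasD.const _ _
  have hy : HasD (fun y : E => ι y) u (fun v => ι v) := (HasD.id u).clm ι
  have hη1 : HasD (fun y : E => ι (η y)) u (fun v => ι (fderiv ℝ η u v)) :=
    HasD.clm ι (HasD.of ((smoothAt hη hu).differentiableAt (by simp)))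
  have t1 := HasD.smul (1 / 2 : ℝ) (HasD.clm P (hc.lie hη1))
  have t2 := HasD.smul (1 / 6 : ℝ) (HasD.clm P (hy.lie (hc.lie hy)))
  have t3 := HasD.smul (1 / 2 : ℝ) ((HasD.of (dsmooth hη hu)).apply (HasD.clm P (hc.lie hy)))
  have t4 := HasD.smul (1 / 2 : ℝ) (HasD.clm P
    (((hc.lie hy).sub (HasD.clm ι (HasD.clm P (hc.lie hy)))).lie hy))
  have t := ((t1.add t2).sub t3).sub t4
  refine HasD.congr_d t (fun v => ?_)
  simp only [lself, l0l, l0r, map_zero, zero_add, add_zero, sub_self, smul_zero]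

omit [FiniteDimensional ℝ 𝔸] in
theorem unit_near (hM : ContinuousAt (MM ι P) 0) (hP : MM ι P 0 = 1) :
    ∀ᶠ x in 𝓝 (0 : E), IsUnit (MM ι P x) := by
  have h1 : {T : E →L[ℝ] E | IsUnit T} ∈ 𝓝 (MM ι P 0) := by
    rw [hP]
    exact Units.isOpen.mem_nhds isUnit_one
  exact hM h1

theorem riem_Lam (S : SD ι P h L η) {u : E} (hu : u ≠ 0) (v : E) :
    riem (spray (Lam ι P L)) 0 u v =
      (1 / 2 : ℝ) • P ⁅ι v, ι (η u)⁆
        - (1 / 4 : ℝ) • P ⁅ι u, ⁅ι u, ι v⁆⁆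
        + (3 / 4 : ℝ) • fderiv ℝ η u (P ⁅ι u, ι v⁆)
        + (3 / 4 : ℝ) • P ⁅⁅ι u, ι v⁆ - ι (P ⁅ι u, ι v⁆), ι u⁆
        - (1 / 4 : ℝ) • P ⁅ι u, ι (fderiv ℝ η u v)⁆
        + (1 / 2 : ℝ) • fderiv ℝ (fun z => fderiv ℝ η z v) u (η u)
        - (1 / 4 : ℝ) • fderiv ℝ η u (fderiv ℝ η u v) := by
  have hun : ∀ᶠ x in 𝓝 (0 : E), IsUnit (MM ι P x) :=
    unit_near (MM_contDiff.continuous.continuousAt) (by rw [MM_zero' S.Pι]; rfl)
  have hune : ∀ᶠ y in 𝓝 u, y ≠ 0 := eventually_ne_nhds hu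
  have h0 : IsUnit (MM ι P 0) := hun.self_of_nhds
  -- the spray at the base point
  have hsp0 : ∀ᶠ y in 𝓝 u, spray (Lam ι P L) 0 y = η y := by
    filter_upwards [hune] with y hy
    rw [spray_eq S h0 hy, GG_zero S]
  have e0 : spray (Lam ι P L) 0 u = η u := hsp0.self_of_nhds
  -- first derivative in the base point
  have e1 : fderiv ℝ (fun z => spray (Lam ι P L) z u) 0 v = FF ι P η v u := by
    have h1 : HasD (fun z => spray (Lam ι P L) z u) 0 (fun a => FF ι P η a u) := by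
      refine (GG_hasD S hu).congr ?_
      filter_upwards [hun] with z hz
      exact spray_eq S hz hu
    exact h1.fderiv v
  -- the mixed derivative
  have e2 : fderiv ℝ (fun z => fderiv ℝ (spray (Lam ι P L) z) u v) 0 u =
      fderiv ℝ (fun y => FF ι P η u y) u v := by
    have h1 : (fun z => fderiv ℝ (spray (Lam ι P L) z) u v) =ᶠ[𝓝 0]
        fun z => fderiv ℝ (fun y => GG ι P η z y) u v := by
      filter_upwards [hun] with z hz
      have h2 : spray (Lam ι P L) z =ᶠ[𝓝 u] fun y => GG ι P η z y := by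
        filter_upwards [hune] with y hy
        exact spray_eq S hz hy
      rw [h2.fderiv_eq]
    rw [h1.fderiv_eq]
    have h3 := mixed_symm (f := fun p : E × E => GG ι P η p.1 p.2) (x := 0) (y := u)
      (GG_smooth S hu) u v
    have h3' : fderiv ℝ (fun z => fderiv ℝ (fun y => GG ι P η z y) u v) 0 u =
      fderiv ℝ (fun y => fderiv ℝ (fun z => GG ι P η z y) 0 u) u v := h3
    rw [h3']
    have h4 : (fun y => fderiv ℝ (fun z => GG ι P η z y) 0 u) =ᶠ[𝓝 u]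
        fun y => FF ι P η u y := by
      filter_upwards [hune] with y hy
      exact (GG_hasD S hy).fderiv u
    rw [h4.fderiv_eq]
  have e3 : ∀ w, fderiv ℝ (spray (Lam ι P L) 0) u w = fderiv ℝ η u w := by
    intro w
    have : spray (Lam ι P L) 0 =ᶠ[𝓝 u] η := hsp0
    rw [this.fderiv_eq]
  have e4 : ∀ w, fderiv ℝ (fun z => fderiv ℝ (spray (Lam ι P L) 0) z v) u w =
      fderiv ℝ (fun z => fderiv ℝ η z v) u w := by
    intro w
    have h1 : (fun z => fderiv ℝ (spray (Lam ι P L) 0) z v) =ᶠ[𝓝 u]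
        fun z => fderiv ℝ η z v := by
      filter_upwards [hune] with y hy
      have h2 : spray (Lam ι P L) 0 =ᶠ[𝓝 y] η := by
        filter_upwards [eventually_ne_nhds hy] with y' hy'
        rw [spray_eq S h0 hy', GG_zero S]
      rw [h2.fderiv_eq]
    rw [h1.fderiv_eq]
  unfold riem
  rw [e0, e1, e2, e3, e3, e4, (FF_hasD S.ηs hu).fderiv]
  unfold FF
  have s1 : ⁅ι v, ι u⁆ = -⁅ι u, ι v⁆ := lskew _ _
  rw [s1]
  simp only [lnl, lnr, laddl, lsubl, map_add, map_neg, map_sub, sub_neg_eq_add]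
  module

end S

end FinS

open scoped ContDiff
open Filter Topology

section final

variable {𝔸 : Type*} [NormedRing 𝔸] [NormedAlgebra ℝ 𝔸] [FiniteDimensional ℝ 𝔸]
variable {g h m : Submodule ℝ 𝔸} {P : 𝔸 →L[ℝ] m} {L : m → ℝ}

theorem fund_zero (hR : RedData g h m P) (hL : MinkData h m P L) {u : m} (hu : u ≠ 0)
    (a b : m) : fund (fun x y : m => L (P (Theta (x : 𝔸) (y : 𝔸)))) 0 u a b = D2 L u a b := by
  have h1 : (fun y : m => L (P (Theta ((0 : m) : 𝔸) (y : 𝔸)))) = L := by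
    funext y
    rw [Submodule.coe_zero, Theta_zero]
    show L (P (y : 𝔸)) = L y
    rw [hR.P_m]
  unfold fund
  show fderiv ℝ (fun z => fderiv ℝ (fun y : m => L (P (Theta ((0 : m) : 𝔸) (y : 𝔸)))) z b) u a = _
  rw [h1]
  exact D2_symm hL.smooth hu b a

/-- `riem_eq_Rop` from the statements `eta_smooth`, `eta_spec`, `inv2` of module E -/
theorem riem_eq_Rop_of (hR : RedData g h m P) (hL : MinkData h m P L)
    (eta_smooth : ContDiffOn ℝ ∞ (eta P L) {0}ᶜ)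
    (eta_spec : ∀ u : m, u ≠ 0 → ∀ w : m, D2 L u (eta P L u) w =
      - D1 L u (P ⁅(u : 𝔸), (w : 𝔸)⁆))
    (inv2 : ∀ Y ∈ h, ∀ u : m, u ≠ 0 → ∀ z : m,
      D2 L u (P ⁅Y, (u : 𝔸)⁆) z = - D1 L u (P ⁅Y, (z : 𝔸)⁆)) {u : m} (hu : u ≠ 0)
    (v : m) : riem (spray fun x y : m => L (P (Theta (x : 𝔸) (y : 𝔸)))) 0 u v
      = Rop P L u v := by
  have S : FinS.SD m.subtypeL P (h : Set 𝔸) L (eta P L) := by
    refine ⟨fun y => hR.P_m y, hL.smooth, hL.pos, eta_smooth,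
      fun u hu w => eta_spec u hu w, fun Y hY u hu => hL.inv Y hY u hu,
      fun Y hY u hu z => inv2 Y hY u hu z, ?_, ?_⟩
    · intro x y
      exact hR.res _ (Theta_mem hR.lie (hR.m_le x.2) (hR.m_le y.2))
    · intro Y hY Y' hY'
      exact hR.P_h _ (hR.hh Y hY Y' hY')
  exact FinS.riem_Lam S hu v

end final


end Pool.Agent.Helper93.Fin
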