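import Pool.Agent.helper80.FinS
import Pool.Agent.Helper93.Fin.E

/-!
# Module FIN-S, conclusion: the Riemann curvature of the chart Lagrangian is `Rop`
-/

noncomputable section

namespace Pool.Agent.Helper93.Fin

variable {𝔸 : Type*} [NormedRing 𝔸] [NormedAlgebra ℝ 𝔸] [FiniteDimensional ℝ 𝔸]
variable {g h m : Submodule ℝ 𝔸} {P : 𝔸 →L[ℝ] m} {L : m → ℝ}

theorem riem_eq_Rop (hR : RedData g h m P) (hL : MinkData h m P L) {u : m} (hu : u ≠ 0)
    (v : m) : riem (spray fun x y : m => L (P (Theta (x : 𝔸) (y : 𝔸)))) 0 u v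
      = Rop P L u v :=
  riem_eq_Rop_of hR hL (eta_smooth hR hL) (fun _ hu w => eta_spec hR hL hu w)
    (fun _ hY _ hu z => inv2 hR hL hY hu z) hu v

end Pool.Agent.Helper93.Fin
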