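import Pool.Agent.helper23.HB.Stmts

/-! Module HB-SUBR: radial coordinates in a subtree along good lines. -/

open MeasureTheory ProbabilityTheory Set Filter Topology
open scoped ENNReal NNReal

namespace Pool.Agent.helper80.HB
open Pool.Agent.helper23.HB

/-- the displacement in a block is bounded by the second coordinate of the block -/
theorem abs_le_blk {X : ℝ → ℝ} (hX : Continuous X) {h : ℝ} (k : ℕ) {r : ℝ}
    (hr0 : 0 ≤ r) (hr : r ≤ h) : |X (k * h + r) - X (k * h)| ≤ (blk h X k).2 := by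
  have hb : BddAbove (Set.range fun r : Icc (0 : ℝ) h => |X (k * h + r) - X (k * h)|) := by
    have hc : Continuous fun r : ℝ => |X (k * h + r) - X (k * h)| :=
      ((hX.comp (continuous_const.add continuous_id)).sub continuous_const).abs
    have := (isCompact_Icc (a := (0 : ℝ)) (b := h)).bddAbove_image hc.continuousOn
    refine this.mono ?_
    rintro _ ⟨r, rfl⟩
    exact ⟨r, r.2, rfl⟩
  exact le_ciSup hb (⟨r, hr0, hr⟩ : Icc (0 : ℝ) h)

theorem good_grid {X : ℝ → ℝ} (h0 : X 0 = 0) {a η K h : ℝ} {n : ℕ}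
    (hG : GoodB h (gdset a η K h) n X) : ∀ k : ℕ, k ≤ n → |X (k * h) - a * (k * h)| ≤ η * (k * h) := by
  intro k
  induction k with
  | zero => intro _; simp [h0]
  | succ k ih =>
    intro hk
    have h1 := ih (by omega)
    have h2 := (hG k (by omega)).1
    simp only [blk] at h2
    have e : ((k + 1 : ℕ) : ℝ) * h = k * h + h := by push_cast; ring
    rw [e]
    rw [abs_le] at h1 h2 ⊢
    constructor <;> nlinarith [h1.1, h1.2, h2.1, h2.2]

/-- position of a path at a time in a block -/
theorem good_time {X : ℝ → ℝ} (hX : Continuous X) (h0 : X 0 = 0) {a η K h : ℝ} (hh : 0 < h)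
    (hK : 0 ≤ K) {n : ℕ} (hG : GoodB h (gdset a η K h) n X) {t : ℝ} (ht0 : 0 ≤ t)
    (ht : t ≤ n * h) : ∃ s : ℝ, 0 ≤ s ∧ s ≤ t ∧ t ≤ s + h ∧ a * s - η * s - K * h ≤ X t ∧
      X t ≤ a * s + η * s + K * h := by
  set k := ⌊t / h⌋₊ with hk
  have hk1 : (k : ℝ) * h ≤ t := by
    have := Nat.floor_le (div_nonneg ht0 hh.le)
    rw [← hk, le_div_iff₀ hh] at this
    exact this
  have hk2 : t ≤ k * h + h := by
    have := (Nat.lt_floor_add_one (t / h)).le
    rw [← hk, div_le_iff₀ hh] at this
    linarith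
  have hkn : k ≤ n := by
    by_contra hcon
    push Not at hcon
    have h1 : (n : ℝ) + 1 ≤ k := by exact_mod_cast hcon
    nlinarith
  have hg := good_grid h0 hG k hkn
  rw [abs_le] at hg
  have hd : |X t - X (k * h)| ≤ K * h := by
    rcases hkn.eq_or_lt with h1 | h1
    · have : t = k * h := by
        rw [h1] at hk1 ⊢
        linarith
      rw [this, sub_self, abs_zero]
      positivity
    · have h2 := (hG k h1).2
      have h3 := abs_le_blk hX k (h := h) (r := t - k * h) (by linarith) (by linarith)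
      rw [add_sub_cancel] at h3
      exact h3.trans h2
  rw [abs_le] at hd
  refine ⟨k * h, by positivity, hk1, hk2, by linarith [hg.1, hd.1], by linarith [hg.2, hd.2]⟩

theorem mSUBR (hR1 : St_R1) : St_SUBR := by
  intro η hη
  obtain ⟨r1, hr1, h2⟩ := hR1.2 η hη
  refine ⟨r1, hr1, ?_⟩
  intro lam τ b R hc hR u p a K h n hh hηa hK hG hstart
  set X := line (sh u τ) (sh u b) p with hXdef
  have hXc : Continuous X := line_continuous _ _ _
  have hX0 : X 0 = 0 := line_of_nonpos (sh_pos hR.pos u) _ _ le_rfl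
  have hb0 : 0 ≤ birth τ u := birth_nonneg hR.pos u
  have hLc : Continuous (line τ b (p ++ u)) := line_continuous _ _ _
  have hsol := hR.rad (p ++ u)
  have hx0 : R (p ++ u) (birth τ u) = R u (birth τ u) :=
    old_append hR.pos hR.old p u hb0 (birth_lt_death hR.pos u).le
  have hinc : ∀ t, 0 ≤ t → line τ b (p ++ u) (birth τ u + t) - line τ b (p ++ u) (birth τ u) = X t := by
    intro t ht
    have e1 := line_shift hR.pos b p u ht
    have e2 := line_shift hR.pos b p u (le_refl (0 : ℝ))
    rw [add_zero, ← hXdef, hX0] at e2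
    rw [e1, e2, ← hXdef]
    ring
  have hlow : ∀ t, 0 ≤ t → t ≤ n * h → ∃ s : ℝ, 0 ≤ s ∧ s ≤ t ∧ t ≤ s + h ∧
      R u (birth τ u) + (a - η) * s - K * h ≤ R (p ++ u) (birth τ u + t) ∧
      X t ≤ (a - (lam + 1 / 2)) * s + η * s + K * h := by
    intro t ht0 ht
    obtain ⟨s, hs0, hst, hts, h3, h4⟩ := good_time hXc hX0 hh hK hG ht0 ht
    refine ⟨s, hs0, hst, hts, ?_, h4⟩
    have h5 := hR1.1 lam _ _ hLc hsol (birth τ u) (birth τ u + t) hb0 (by linarith)
    rw [hinc t ht0, hx0] at h5
    have h6 : (lam + 1 / 2) * s ≤ (lam + 1 / 2) * (birth τ u + t - birth τ u) := by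
      apply mul_le_mul_of_nonneg_left _ hc.le
      linarith
    nlinarith
  have hge : ∀ t, 0 ≤ t → t ≤ n * h → r1 ≤ R (p ++ u) (birth τ u + t) := by
    intro t ht0 ht
    obtain ⟨s, hs0, -, -, h3, -⟩ := hlow t ht0 ht
    have : 0 ≤ (a - η) * s := mul_nonneg (by linarith) hs0
    linarith
  intro t ht0 ht
  obtain ⟨s, hs0, hst, hts, h3, h4⟩ := hlow t ht0 ht
  constructor
  · have h5 : (a - η) * t ≤ (a - η) * (s + h) := mul_le_mul_of_nonneg_left hts (by linarith)
    nlinarith
  · have h5 := (h2 lam _ _ hLc hsol hc).1 (birth τ u) (birth τ u + t) hb0 (by linarith) (by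
      intro y hy
      have h7 := hge (y - birth τ u) (by linarith [hy.1]) (by linarith [hy.2])
      rwa [add_sub_cancel] at h7)
    rw [hinc t ht0, hx0] at h5
    have h6 : (a - (lam + 1 / 2)) * (s - t) ≤ |a - (lam + 1 / 2)| * h := by
      calc (a - (lam + 1 / 2)) * (s - t) ≤ |(a - (lam + 1 / 2)) * (s - t)| := le_abs_self _
        _ = |a - (lam + 1 / 2)| * |s - t| := abs_mul _ _
        _ ≤ |a - (lam + 1 / 2)| * h := by
          apply mul_le_mul_of_nonneg_left _ (abs_nonneg _)
          rw [abs_le]; constructor <;> linarith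
    have h7 : η * s ≤ η * t := mul_le_mul_of_nonneg_left hst hη.le
    have h8 : 0 ≤ η * h := by positivity
    nlinarith

end Pool.Agent.helper80.HB
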